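import Pool.Agent.MP_856573_co.H74.Bas

/-! Basic facts on triangulations. -/

set_option autoImplicit false

namespace Pool.Agent.MP_856573_co.H74

open Finset
open Pool.Agent.MP_31805c_co.H47 (Mac Z2 Fam)
open Pool.Agent.MP_31805c_co.H47.FamAux
open Pool.Agent.MP_31805c_co.H93 (Conn)

namespace TbAux

variable {V : Type} [DecidableEq V] {G : SimpleGraph V} {D : Finset V} {F : Finset (Finset V)}

/-- The edges inside a set of vertices. -/
def chi (f : Finset V) : Sym2 V → Z2 :=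
  Sym2.lift ⟨fun u v => if u ≠ v ∧ u ∈ f ∧ v ∈ f then 1 else 0, fun _ _ =>
    if_congr ⟨fun h => ⟨h.1.symm, h.2.2, h.2.1⟩, fun h => ⟨h.1.symm, h.2.2, h.2.1⟩⟩ rfl rfl⟩

theorem chi_mk (f : Finset V) (u v : V) :
    chi f s(u, v) = if u ≠ v ∧ u ∈ f ∧ v ∈ f then 1 else 0 := rfl

theorem chi_ne {f : Finset V} {u v : V} : chi f s(u, v) ≠ 0 ↔ u ≠ v ∧ u ∈ f ∧ v ∈ f := by
  rw [chi_mk]
  split_ifs with h
  · exact ⟨fun _ => h, fun _ => one_ne_zero⟩
  · exact ⟨fun e => absurd rfl e, fun e => absurd e h⟩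

theorem dist3 {u v w : V} (h : ({u, v, w} : Finset V).card = 3) : u ≠ v ∧ u ≠ w ∧ v ≠ w := by
  refine ⟨?_, ?_, ?_⟩ <;> rintro rfl
  · have := card_le_two (a := u) (b := w)
    rw [insert_eq_of_mem (mem_insert_self _ _)] at h
    omega
  · have := card_le_two (a := v) (b := u)
    rw [insert_eq_of_mem (by simp)] at h
    omega
  · have := card_le_two (a := u) (b := v)
    rw [pair_eq_singleton] at h
    omega

theorem chi3 {u v w : V} (h : ({u, v, w} : Finset V).card = 3) (e : Sym2 V) :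
    chi {u, v, w} e = ind s(u, v) e + ind s(u, w) e + ind s(v, w) e := by
  obtain ⟨h1, h2, h3⟩ := dist3 h
  induction e using Sym2.ind with
  | h a b =>
    simp only [chi_mk, ind, Sym2.eq_iff, mem_insert, mem_singleton]
    by_cases a1 : a = u <;> by_cases a2 : a = v <;> by_cases a3 : a = w <;>
      by_cases b1 : b = u <;> by_cases b2 : b = v <;> by_cases b3 : b = w <;>
      simp_all [eq_comm]

theorem third {f : Finset V} (h : f.card = 3) {u v : V} (huv : u ≠ v) (hu : u ∈ f) (hv : v ∈ f) :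
    ∃ w, f = {u, v, w} := by
  have h1 : v ∈ f.erase u := mem_erase.2 ⟨huv.symm, hv⟩
  have h2 : ((f.erase u).erase v).card = 1 := by
    rw [card_erase_of_mem h1, card_erase_of_mem hu, h]
  obtain ⟨w, hw⟩ := card_eq_one.1 h2
  exact ⟨w, by rw [← insert_erase hu, ← insert_erase h1, hw]⟩

theorem _root_.Pool.Agent.MP_856573_co.H74.Tri.card3 (h : Tri G D F) {f : Finset V}
    (hf : f ∈ F) : f.card = 3 := (h.face f hf).2.card_eq

theorem _root_.Pool.Agent.MP_856573_co.H74.Tri.fadj (h : Tri G D F) {f : Finset V} (hf : f ∈ F)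
    {u v : V} (huv : u ≠ v) (hu : u ∈ f) (hv : v ∈ f) : G.Adj u v ∧ u ∈ D ∧ v ∈ D :=
  ⟨(h.face f hf).2.isClique hu hv huv, (h.face f hf).1 hu, (h.face f hf).1 hv⟩

theorem filter_eq (h : Tri G D F) {f f' : Finset V} (hf : f ∈ F) (hf' : f' ∈ F) (hne : f ≠ f')
    {u v : V} (huv : u ≠ v) (a : u ∈ f) (b : v ∈ f) (c : u ∈ f') (d : v ∈ f') :
    (F.filter fun g => u ∈ g ∧ v ∈ g) = {f, f'} := by
  obtain ⟨h1, h2, h3⟩ := h.fadj hf huv a b
  refine (eq_of_subset_of_card_le ?_ ?_).symm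
  · intro g hg
    rcases mem_insert.1 hg with rfl | hg
    · exact mem_filter.2 ⟨hf, a, b⟩
    · rw [mem_singleton.1 hg]
      exact mem_filter.2 ⟨hf', c, d⟩
  · rw [h.two u h2 v h3 h1, card_pair hne]

theorem two_faces (h : Tri G D F) {u v : V} (hu : u ∈ D) (hv : v ∈ D) (huv : G.Adj u v) :
    ∃ f ∈ F, ∃ f' ∈ F, f ≠ f' ∧ u ∈ f ∧ v ∈ f ∧ u ∈ f' ∧ v ∈ f' := by
  obtain ⟨f, f', hne, e⟩ := card_eq_two.1 (h.two u hu v hv huv)
  have h1 := mem_filter.1 (e ▸ mem_insert_self f {f'})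
  have h2 := mem_filter.1 (e ▸ mem_insert_of_mem (mem_singleton_self f'))
  exact ⟨f, h1.1, f', h2.1, hne, h1.2.1, h1.2.2, h2.2.1, h2.2.2⟩

theorem dc (h : Tri G D F) (X : Set (Finset V))
    (hX : ∀ f ∈ X, ∀ f' ∈ F, f ∈ F → (∃ u v, u ≠ v ∧ u ∈ f ∧ v ∈ f ∧ u ∈ f' ∧ v ∈ f') → f' ∈ X) :
    ∀ f ∈ F, ∀ f' ∈ F, f ∈ X → f' ∈ X := by
  intro f hf f' hf' hfX
  have loc : ∀ v, ∀ g ∈ F, ∀ g' ∈ F, v ∈ g → v ∈ g' → g ∈ X → g' ∈ X := fun v =>
    h.lc v X fun g hg g' hg' hgF a b ⟨w, hw, c, d⟩ => hX g hg g' hg' hgF ⟨w, v, hw, c, a, d, b⟩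
  obtain ⟨v, hv⟩ := card_pos.1 (show 0 < f.card by rw [h.card3 hf]; norm_num)
  obtain ⟨v', hv'⟩ := card_pos.1 (show 0 < f'.card by rw [h.card3 hf']; norm_num)
  refine conn_ind (fun t => ∀ g ∈ F, t ∈ g → g ∈ X)
    (h.conn v ((h.face f hf).1 hv) v' ((h.face f' hf').1 hv'))
    (fun g hg a => loc v f hf g hg hv a hfX) (fun a ha b hb _ hab ih g hg c => ?_) f' hf' hv'
  obtain ⟨g0, hg0, -, -, -, a1, a2, -⟩ := two_faces h ha hb hab
  exact loc b g0 hg0 g hg a2 c (ih g0 hg0 a1)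

theorem deg (h : Tri G D F) (v : V) (hv : v ∈ D) : 3 ≤ (F.filter fun f => v ∈ f).card ∧
    ∃ a ∈ D, ∃ b ∈ D, ∃ c ∈ D, a ≠ b ∧ a ≠ c ∧ b ≠ c ∧ G.Adj v a ∧ G.Adj v b ∧ G.Adj v c := by
  obtain ⟨u, hu, huv⟩ := exists_mem_ne (show 1 < D.card by have := h.four; omega) v
  obtain ⟨a, ha, hva⟩ : ∃ a ∈ D, G.Adj v a := by
    rcases Relation.ReflTransGen.cases_head (h.conn v hv u hu) with e | ⟨a, h1, -⟩
    · exact absurd e.symm huv
    · exact ⟨a, h1.2.2, h1.1⟩
  obtain ⟨f, hf, f', hf', hne, a1, a2, a3, a4⟩ := two_faces h hv ha hva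
  obtain ⟨b, rfl⟩ := third (h.card3 hf) hva.ne a1 a2
  obtain ⟨c, rfl⟩ := third (h.card3 hf') hva.ne a3 a4
  obtain ⟨-, b1, b2⟩ := dist3 (h.card3 hf)
  obtain ⟨-, c1, c2⟩ := dist3 (h.card3 hf')
  have hbc : b ≠ c := fun e => hne (by rw [e])
  obtain ⟨hvb, -, hb⟩ := h.fadj hf b1 (by simp) (by simp)
  obtain ⟨hvc, -, hc⟩ := h.fadj hf' c1 (by simp) (by simp)
  refine ⟨?_, a, ha, b, hb, c, hc, b2, c2, hbc, hva, hvb, hvc⟩
  obtain ⟨g, hg, g', hg', hgg, g1, g2, g3, g4⟩ := two_faces h hv hb hvb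
  have hb' : b ∉ ({v, a, c} : Finset V) := by simp [b1.symm, b2.symm, hbc]
  have hsub : ({{v, a, c}, g, g'} : Finset (Finset V)) ⊆ F.filter fun f => v ∈ f := by
    intro x hx
    simp only [mem_insert, mem_singleton] at hx
    rcases hx with rfl | rfl | rfl
    exacts [mem_filter.2 ⟨hf', a3⟩, mem_filter.2 ⟨hg, g1⟩, mem_filter.2 ⟨hg', g3⟩]
  refine le_trans (le_of_eq ?_) (card_le_card hsub)
  have n1 : ({v, a, c} : Finset V) ≠ g := fun e => hb' (e ▸ g2)
  have n2 : ({v, a, c} : Finset V) ≠ g' := fun e => hb' (e ▸ g4)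
  exact (card_eq_three.2 ⟨_, _, _, n1, n2, hgg, rfl⟩).symm

/-- The face potential is constant at a vertex that misses the edge set. -/
theorem const_at (h : Tri G D F) {C : Sym2 V → Z2} {σ : Finset V → Z2}
    (hσ : ∀ u v, u ≠ v → ∀ f ∈ F, ∀ f' ∈ F, f ≠ f' → u ∈ f → v ∈ f → u ∈ f' → v ∈ f' →
      C s(u, v) = σ f + σ f') {t : V} (ht : ∀ w, C s(t, w) = 0) {g g' : Finset V} (hg : g ∈ F)
    (hg' : g' ∈ F) (a : t ∈ g) (b : t ∈ g') : σ g' = σ g := by
  refine h.lc t {x | σ x = σ g} (fun f hf f' hf' hfF c d ⟨w, hw, e1, e2⟩ => ?_) g hg g' hg' a b rfl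
  by_cases hff : f = f'
  · exact hff ▸ hf
  have h1 := hσ t w hw.symm f hfF f' hf' hff c e1 d e2
  rw [ht] at h1
  have h2 : σ f = σ g := hf
  show σ f' = σ g
  rw [← h2]
  revert h1
  generalize σ f = p
  generalize σ f' = q
  revert p q
  decide

variable [Fintype V]

theorem chi_pair {u v w : V} (h : ({u, v, w} : Finset V).card = 3) (a : Sym2 V → Z2) :
    ∑ e, chi {u, v, w} e * a e = a s(u, v) + a s(u, w) + a s(v, w) := by
  simp only [chi3 h, add_mul, sum_add_distrib, sum_ind]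

theorem chi_even {f : Finset V} (h : f.card = 3) (v : V) : ∑ w, chi f s(v, w) = 0 := by
  simp only [chi_mk]
  by_cases hv : v ∈ f
  · rw [sum_boole]
    have : (univ.filter fun w => v ≠ w ∧ v ∈ f ∧ w ∈ f) = f.erase v := by
      ext w
      simp [hv, eq_comm]
    rw [this, card_erase_of_mem hv, h]
    rfl
  · simp [hv]

omit [Fintype V] in
theorem chi_sub {T : Finset V} (hT : T3 G D T) (e : Sym2 V) (he : chi T e ≠ 0) :
    e ∈ (GD G D).edgeSet := by
  induction e using Sym2.ind with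
  | h a b =>
    obtain ⟨h1, h2, h3⟩ := chi_ne.1 he
    exact ⟨hT.2.isClique h2 h3 h1, hT.1 h2, hT.1 h3⟩

theorem famT (h : Tri G D F) : Fam (GD G D) fun i : F => chi i.1 where
  sub i := chi_sub (h.face _ i.2)
  even i := chi_even (h.card3 i.2)
  two e := by
    induction e using Sym2.ind with
    | h u v =>
      rcases Set.eq_empty_or_nonempty {i : F | chi i.1 s(u, v) ≠ 0} with e | ⟨i, hi⟩
      · rw [e, Set.ncard_empty]
        omega
      obtain ⟨h1, h2, h3⟩ := chi_ne.1 hi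
      obtain ⟨a, b, c⟩ := h.fadj i.2 h1 h2 h3
      refine le_trans ?_ (h.two u b v c a).le
      rw [← Set.ncard_image_of_injective _ Subtype.val_injective, ← Set.ncard_coe_finset]
      refine Set.ncard_le_ncard ?_
      rintro _ ⟨j, hj, rfl⟩
      exact mem_coe.2 (mem_filter.2 ⟨j.2, (chi_ne.1 hj).2⟩)
  span a ha := by
    obtain ⟨p, hp⟩ := h.span a fun u v w hf => by
      rw [← chi_pair (h.card3 hf)]
      exact ha ⟨_, hf⟩
    exact ⟨p, fun u v huv => hp u huv.2.1 v huv.2.2 huv.1⟩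

theorem prim (h : Tri G D F) (C : Sym2 V → Z2) (hC : ∀ e, C e ≠ 0 → e ∈ (GD G D).edgeSet)
    (hev : ∀ v, ∑ w, C s(v, w) = 0) :
    ∃ σ : Finset V → Z2, ∀ u v, u ≠ v → ∀ f ∈ F, ∀ f' ∈ F, f ≠ f' → u ∈ f → v ∈ f → u ∈ f' →
      v ∈ f' → C s(u, v) = σ f + σ f' := by
  obtain ⟨σ, hσ⟩ := prim' (famT h) C hC hev
  refine ⟨fun f => if hf : f ∈ F then σ ⟨f, hf⟩ else 0,
    fun u v huv f hf f' hf' hne a b c d => ?_⟩
  have e := filter_eq h hf hf' hne huv a b c d
  beta_reduce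
  rw [hσ, dif_pos hf, dif_pos hf',
    sum_eq_add_of_mem (⟨f, hf⟩ : F) ⟨f', hf'⟩ (mem_univ _) (mem_univ _)
      (fun e => hne (congrArg Subtype.val e))]
  · simp [chi_mk, huv, a, b, c, d]
  · intro i _ hi
    by_cases h0 : chi i.1 s(u, v) = 0
    · rw [h0, mul_zero]
    have h1 : i.1 ∈ ({f, f'} : Finset (Finset V)) := e ▸ mem_filter.2 ⟨i.2, (chi_ne.1 h0).2⟩
    rcases mem_insert.1 h1 with h1 | h1
    · exact absurd (Subtype.ext h1) hi.1
    · exact absurd (Subtype.ext (mem_singleton.1 h1)) hi.2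

theorem tsep (h : Tri G D F) (u v w x y : V) (hT : T3 G D {u, v, w})
    (hn : ({u, v, w} : Finset V) ∉ F) (hx : ({u, v, x} : Finset V) ∈ F)
    (hy : ({u, v, y} : Finset V) ∈ F) (hxy : x ≠ y) :
    ¬ Conn G ((D : Set V) \ {u, v, w}) x y := by
  intro hc
  obtain ⟨σ, hσ⟩ := prim h _ (chi_sub hT) (chi_even hT.2.card_eq)
  obtain ⟨huv, hux, hvx⟩ := dist3 (h.card3 hx)
  have hxw : x ≠ w := fun e => hn (e ▸ hx)
  have off : ∀ t, t ∉ ({u, v, w} : Set V) → ∀ z, chi {u, v, w} s(t, z) = 0 := fun t ht z => by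
    by_contra h0
    exact ht (by simpa using (chi_ne.1 h0).2.1)
  have hx0 : x ∉ ({u, v, w} : Set V) := by simp [hux.symm, hvx.symm, hxw]
  have key := conn_ind (fun t => ∀ g ∈ F, t ∈ g → σ g = σ {u, v, x}) hc
    (fun g hg a => const_at h hσ (off x hx0) hx hg (by simp) a) (fun a ha b hb _ hab ih g hg c => by
      obtain ⟨g0, hg0, -, -, -, a1, a2, -⟩ := two_faces h ha.1 hb.1 hab
      rw [const_at h hσ (off b hb.2) hg0 hg a2 c, ih g0 hg0 a1]) _ hy (by simp)
  have hne : ({u, v, x} : Finset V) ≠ {u, v, y} := fun e => by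
    have : x ∈ ({u, v, y} : Finset V) := e ▸ by simp
    simp [hux.symm, hvx.symm, hxy] at this
  have h1 := hσ u v huv _ hx _ hy hne (by simp) (by simp) (by simp) (by simp)
  rw [key, z_add_self] at h1
  exact chi_ne.2 ⟨huv, by simp, by simp⟩ h1

theorem deg_ind' {b c : V} (h : b ≠ c) (v : V) : ∑ x, ind s(b, c) s(v, x)
    = (if v = b then 1 else 0) + (if v = c then 1 else 0) := by
  rw [deg_ind h]
  by_cases h1 : v = b <;> by_cases h2 : v = c <;> simp_all

theorem walk {H : SimpleGraph V} {W : Set V} {x y : V} (hc : Conn H W x y) :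
    ∃ C : Sym2 V → Z2, (∀ a b, C s(a, b) ≠ 0 → H.Adj a b ∧ a ∈ W ∧ b ∈ W) ∧
      ∀ v, ∑ w, C s(v, w) = (if v = x then 1 else 0) + (if v = y then 1 else 0) := by
  induction hc with
  | refl => exact ⟨0, fun a b e => absurd rfl e, fun v => by simp [z_add_self]⟩
  | @tail b c _ hbc ih =>
    obtain ⟨C, h1, h2⟩ := ih
    refine ⟨fun e => C e + ind s(b, c) e, fun p q e => ?_, fun v => ?_⟩
    · by_cases h0 : C s(p, q) = 0
      · have h3 : s(p, q) = s(b, c) := by
          by_contra h3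
          exact e (by simp only [h0, ind, if_neg h3, add_zero])
        rcases Sym2.eq_iff.1 h3 with ⟨rfl, rfl⟩ | ⟨rfl, rfl⟩
        · exact hbc
        · exact ⟨hbc.1.symm, hbc.2.2, hbc.2.1⟩
      · exact h1 p q h0
    · rw [sum_add_distrib, h2, deg_ind' hbc.1.ne, add_assoc, ← add_assoc (if v = b then 1 else 0),
        z_add_self, zero_add]

theorem sep (h : Tri G D F) (s z x y : V) (hs : ({s, x, y} : Finset V) ∈ F)
    (hz : ({z, x, y} : Finset V) ∈ F) (hsz : G.Adj s z) :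
    ¬ Conn (G.deleteEdges {s(x, y)}) ((D : Set V) \ {s, z}) x y := by
  intro hc
  obtain ⟨C, h1, h2⟩ := walk hc
  obtain ⟨hsx, hsy, hxy⟩ := dist3 (h.card3 hs)
  obtain ⟨hzx, hzy, -⟩ := dist3 (h.card3 hz)
  obtain ⟨axy, hx, hy⟩ := h.fadj hs hxy (by simp) (by simp)
  obtain ⟨σ, hσ⟩ := prim h (fun e => C e + ind s(x, y) e) (fun e he => by
      by_cases h3 : e = s(x, y)
      · exact h3 ▸ ⟨axy, hx, hy⟩
      induction e using Sym2.ind with
      | h a b =>
        obtain ⟨a1, a2, a3⟩ := h1 a b fun h0 => he (by simp only [h0, ind, if_neg h3, add_zero])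
        exact ⟨(SimpleGraph.deleteEdges_adj.1 a1).1, a2.1, a3.1⟩)
    (fun v => by rw [sum_add_distrib, h2, deg_ind' hxy, z_add_self])
  have off : ∀ t, t ∈ ({s, z} : Set V) → t ≠ x → t ≠ y → ∀ w,
      C s(t, w) + ind s(x, y) s(t, w) = 0 := fun t ht a b w => by
    have h3 : C s(t, w) = 0 := by
      by_contra h0
      exact (h1 t w h0).2.1.2 ht
    simp [h3, ind, a, b]
  obtain ⟨g, hg, -, -, -, a1, a2, -⟩ := two_faces h ((h.face _ hs).1 (by simp))
    ((h.face _ hz).1 (by simp)) hsz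
  have e1 := const_at (C := fun e => C e + ind s(x, y) e) h hσ (off s (by simp) hsx hsy) hg hs a1
    (by simp)
  have e2 := const_at (C := fun e => C e + ind s(x, y) e) h hσ (off z (by simp) hzx hzy) hg hz a2
    (by simp)
  have hne : ({s, x, y} : Finset V) ≠ {z, x, y} := fun e => by
    have : s ∈ ({z, x, y} : Finset V) := e ▸ by simp
    simp [hsz.ne, hsx, hsy] at this
  have h3 := hσ x y hxy _ hs _ hz hne (by simp) (by simp) (by simp) (by simp)
  have h4 : C s(x, y) = 0 := by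
    by_contra h0
    exact (SimpleGraph.deleteEdges_adj.1 (h1 x y h0).1).2 rfl
  rw [e1, e2, z_add_self] at h3
  simp [h4, ind] at h3

/-- Two members that contain an edge are merged when the edge is deleted. -/
theorem merge {I : Type} [Fintype I] [DecidableEq I] {H : SimpleGraph V} {A : I → Sym2 V → Z2}
    (hA : Fam H A) {i j : I} (hij : i ≠ j) {e0 : Sym2 V} (hi : A i e0 = 1) (hj : A j e0 = 1) :
    Fam (H.deleteEdges {e0})
      fun k e => if k = i then A i e + A j e else if k = j then 0 else A k e := by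
  have h0 : ∀ k, k ≠ i → k ≠ j → A k e0 = 0 := fun k a b => by
    by_contra hk
    have h1 : ({i, j, k} : Set I) ⊆ {k | A k e0 ≠ 0} := by
      rintro _ (rfl | rfl | rfl)
      · simp [hi]
      · simp [hj]
      · exact hk
    have h2 := (Set.ncard_le_ncard h1).trans (hA.two e0)
    rw [Set.ncard_eq_three.2 ⟨i, j, k, hij, a.symm, b.symm, rfl⟩] at h2
    omega
  refine ⟨fun k e he => ?_, fun k v => ?_, fun e => ?_, fun a ha => ?_⟩
  · rw [SimpleGraph.edgeSet_deleteEdges]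
    split_ifs at he with a b
    · refine ⟨?_, fun h1 => he (by rw [show e = e0 from h1, hi, hj]; rfl)⟩
      by_cases h1 : A i e = 0
      · exact hA.sub j e fun h2 => he (by rw [h1, h2, add_zero])
      · exact hA.sub i e h1
    · exact absurd rfl he
    · exact ⟨hA.sub k e he, fun h1 => he (by rw [show e = e0 from h1, h0 k a b])⟩
  · split_ifs
    · rw [sum_add_distrib, hA.even, hA.even, add_zero]
    · simp
    · exact hA.even k v
  · refine le_trans (Set.ncard_le_ncard_of_injOn (fun k => if k = i ∧ A i e = 0 then j else k)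
      (fun k hk => ?_) (fun k hk l hl hkl => ?_)) (hA.two e)
    · simp only [Set.mem_ofPred_eq] at hk ⊢
      by_cases a : k = i
      · rw [if_pos a] at hk
        by_cases b : A i e = 0
        · rw [if_pos ⟨a, b⟩]
          rwa [b, zero_add] at hk
        · rwa [if_neg fun c => b c.2, a]
      · rw [if_neg a] at hk
        rw [if_neg fun c => a c.1]
        split_ifs at hk
        · exact absurd rfl hk
        · exact hk
    · simp only [Set.mem_ofPred_eq] at hk hl hkl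
      split_ifs at hkl with a b b
      · rw [a.1, b.1]
      · exact absurd (by rw [← hkl, if_neg hij.symm, if_pos rfl]) hl
      · exact absurd (by rw [hkl, if_neg hij.symm, if_pos rfl]) hk
      · exact hkl
  · obtain ⟨p, hp⟩ := hA.span (fun e => a e + ind e0 e * ∑ e, A i e * a e) fun k => by
      have h1 := ha k
      simp only [mul_add, sum_add_distrib, ← mul_assoc, ← sum_mul, sum_ind']
      by_cases a1 : k = i
      · rw [a1, hi, one_mul, z_add_self]
      by_cases a2 : k = j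
      · have h2 := ha i
        simp only [if_true, add_mul, sum_add_distrib] at h2
        rw [a2, hj, one_mul, add_comm, h2]
      · simp only [if_neg a1, if_neg a2] at h1
        rw [h0 k a1 a2, zero_mul, add_zero, h1]
    refine ⟨p, fun u v huv => ?_⟩
    obtain ⟨h1, h2⟩ := SimpleGraph.deleteEdges_adj.1 huv
    rw [← hp u v h1, ind, if_neg (show s(u, v) ≠ e0 from h2), zero_mul, add_zero]

theorem flip (h : Tri G D F) (s z x y : V) (hs : ({s, x, y} : Finset V) ∈ F)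
    (hz : ({z, x, y} : Finset V) ∈ F) (hsz : s ≠ z) :
    Mac ((GD G D).deleteEdges {s(x, y)} ⊔ SimpleGraph.edge s z) := by
  obtain ⟨hsx, hsy, hxy⟩ := dist3 (h.card3 hs)
  obtain ⟨hzx, hzy, -⟩ := dist3 (h.card3 hz)
  have hne : (⟨_, hs⟩ : F) ≠ ⟨_, hz⟩ := fun e => by
    have e' : ({s, x, y} : Finset V) = {z, x, y} := congrArg Subtype.val e
    have : s ∈ ({z, x, y} : Finset V) := e' ▸ by simp
    simp [hsz, hsx, hsy] at this
  have hm := merge (famT h) hne (e0 := s(x, y)) (by simp [chi_mk, hxy]) (by simp [chi_mk, hxy])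
  refine cut' hm ⟨_, hs⟩ (fun e => ind s(s, x) e + ind s(x, z) e) s z hsz (fun e he => ?_)
    fun v => ?_
  · rw [if_pos rfl]
    by_cases h1 : e = s(s, x)
    · simp [h1, chi_mk, hsx, hsz, hsy]
    by_cases h2 : e = s(x, z)
    · simp [h2, chi_mk, hzx.symm, hsz.symm, hzx, hzy]
    · exact absurd (by simp only [ind, if_neg h1, if_neg h2, add_zero]) he
  · rw [sum_add_distrib, deg_ind' hsx, deg_ind' hzx.symm, add_assoc,
      ← add_assoc (if v = x then 1 else 0), z_add_self, zero_add, ← deg_ind' hsz, deg_ind hsz]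

end TbAux

theorem tb : StmtTB where
  mac _ _ _ _ _ _ h := ⟨_, inferInstance, _, TbAux.famT h⟩
  prim _ _ _ _ _ _ h := TbAux.prim h
  dc _ _ _ _ _ _ h := TbAux.dc h
  deg _ _ _ _ _ _ h := TbAux.deg h
  tsep _ _ _ _ _ _ h := TbAux.tsep h
  sep _ _ _ _ _ _ h := TbAux.sep h
  flip _ _ _ _ _ _ h s z x y hs hz hsz _ := TbAux.flip h s z x y hs hz hsz

end Pool.Agent.MP_856573_co.H74
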